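import Pool.Agent.MDG.Stmts
import Pool.Agent.Helper82_HEC.TWO

/-! # Squad MDG (MP_3faef8_co), row TWR: Lemma A with a real shift on one side of a bipartite graph
(the proof of the row TWO of squad HEC by helper82, with a real shift) -/

set_option autoImplicit false

open Finset hiding ext
open Pool.Agent.HEC Pool.Agent.HEC.H82

namespace Pool.Agent.MDG.H36

open Classical in
theorem twr (hT : ThrStmt) : TwrStmt := by
  intro V _ H t L eta M r z0 hb hL hcut hel hM hsum0
  have heta : 0 < eta := by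
    by_contra h
    push Not at h
    nlinarith
  -- the multigraph on the side `t = true`
  let P : V × V × V → Prop := fun p => t p.1 = false ∧ H.Adj p.1 p.2.1 ∧ H.Adj p.1 p.2.2
  have nbr : ∀ w u, t w = false → H.Adj w u → t u = true := by
    intro w u hw hu
    have h1 := hb w u hu
    rcases h : t u with _ | _
    · exact absurd (hw.trans h.symm) h1
    · rfl
  let S := {v : V // t v = true}
  let E := {p : V × V × V // P p}
  let s : E → S := fun e => ⟨e.1.2.1, nbr _ _ e.2.1 e.2.2.1⟩
  let s' : E → S := fun e => ⟨e.1.2.2, nbr _ _ e.2.1 e.2.2.2⟩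
  let k : E → ℝ := fun e => 1 / (dg H e.1.1 : ℝ)
  have dgpos : ∀ w u, H.Adj w u → 0 < (dg H w : ℝ) := by
    intro w u h
    rw [dg_real]
    refine sum_pos' (fun _ _ => ind_nonneg _) ⟨u, mem_univ u, ?_⟩
    rw [ind_t h]; exact one_pos
  have hk : ∀ e, 0 < k e := fun e => one_div_pos.mpr (dgpos _ _ e.2.2.1)
  have hc : ∀ W : Finset S, W.Nonempty → W ≠ univ → L ≤ mcut s s' k W := by
    intro W hW1 hW2
    let U : Finset V := univ.filter (fun v => ∃ h : t v = true, (⟨v, h⟩ : S) ∈ W)
    have memU : ∀ v (h : t v = true), v ∈ U ↔ (⟨v, h⟩ : S) ∈ W := by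
      intro v h
      simp only [U, mem_filter, mem_univ, true_and]
      exact ⟨fun ⟨_, h2⟩ => h2, fun h2 => ⟨h, h2⟩⟩
    obtain ⟨u0, hu0⟩ := hW1
    obtain ⟨z0, hz0⟩ : ∃ z : S, z ∉ W := by
      by_contra hcon
      push Not at hcon
      exact hW2 (eq_univ_iff_forall.mpr hcon)
    have h1 := cutineq H t hb U (fun u hu => by
      simp only [U, mem_filter, mem_univ, true_and] at hu
      exact hu.1) L hcut ⟨u0.1, (memU u0.1 u0.2).mpr hu0⟩ z0.1 z0.2
      (fun h => hz0 ((memU z0.1 z0.2).mp h))
    refine h1.trans (le_of_eq ?_)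
    have h2 : mcut s s' k W = ∑ e : E, ind ((e.1.2.1 ∈ U ∧ e.1.2.2 ∉ U) ∨
        (e.1.2.1 ∉ U ∧ e.1.2.2 ∈ U)) * k e := by
      unfold mcut
      refine sum_congr rfl fun e _ => ?_
      have m1 := memU e.1.2.1 (nbr _ _ e.2.1 e.2.2.1)
      have m2 := memU e.1.2.2 (nbr _ _ e.2.1 e.2.2.2)
      rw [ite_ind, m1, m2]
    rw [h2]
    have h3 := sumE P k (fun p => (p.2.1 ∈ U ∧ p.2.2 ∉ U) ∨ (p.2.1 ∉ U ∧ p.2.2 ∈ U))
    refine Eq.trans ?_ h3.symm
    rw [Fintype.sum_prod_type]
    refine sum_congr rfl fun w _ => ?_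
    rw [Fintype.sum_prod_type]
    have h4 : ∀ u u', ind ((u ∈ U ∧ u' ∉ U) ∨ (u ∉ U ∧ u' ∈ U)) * ext k (w, u, u') =
        ind (t w = false) * (1 / (dg H w : ℝ)) *
          ((ind (H.Adj w u) * ind (u ∈ U)) * (ind (H.Adj w u') * (1 - ind (u' ∈ U))) +
           (ind (H.Adj w u) * (1 - ind (u ∈ U))) * (ind (H.Adj w u') * ind (u' ∈ U))) := by
      intro u u'
      by_cases a1 : t w = false <;> by_cases a2 : H.Adj w u <;> by_cases a3 : H.Adj w u' <;>
        by_cases a4 : u ∈ U <;> by_cases a5 : u' ∈ U <;> simp [ind, ext, P, k, a1, a2, a3, a4, a5]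
    simp only [h4]
    simp only [← mul_sum, mul_add, sum_add_distrib, ← sum_mul]
    rw [nb_compl]
    change _ = ind (t w = false) * (1 / (dg H w : ℝ)) * (nb H U w * (dg H w - nb H U w)) +
      ind (t w = false) * (1 / (dg H w : ℝ)) * ((dg H w - nb H U w) * nb H U w)
    ring
  have hr : ∑ v : S, r v.1 = M * z0 := by
    have : (∑ v : S, r v.1) = ∑ v, (if t v = true then r v else 0) := by
      rw [← sum_filter]
      exact (sum_subtype (univ.filter fun v => t v = true) (fun x => by simp) r).symm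
    rw [this]; exact hsum0
  obtain ⟨z, y, hz, hy, hbd⟩ := hT S E s s' k L eta M (fun v => r v.1) z0 hL hk hc hel hM hr
  let Y : V → V → V → ℝ := fun w u u' => ext y (w, u, u')
  have Y0 : ∀ w u u', ¬ P (w, u, u') → Y w u u' = 0 := fun w u u' h => ext_f y _ h
  have Yb : ∀ w u u', |Y w u u'| ≤ ind (H.Adj w u') * (M / 2 * (eta * (1 / (dg H w : ℝ)))) := by
    intro w u u'
    by_cases h : P (w, u, u')
    · rw [ind_t h.2.2, one_mul]
      have : Y w u u' = y ⟨(w, u, u'), h⟩ := ext_t y _ h
      rw [this]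
      exact hy ⟨(w, u, u'), h⟩
    · rw [Y0 _ _ _ h, abs_zero]
      have : 0 ≤ (dg H w : ℝ) := Nat.cast_nonneg _
      exact mul_nonneg (ind_nonneg _) (by positivity)
  have Yb' : ∀ w u u', |Y w u' u| ≤ ind (H.Adj w u') * (M / 2 * (eta * (1 / (dg H w : ℝ)))) := by
    intro w u u'
    by_cases h : P (w, u', u)
    · rw [ind_t h.2.1, one_mul]
      have : Y w u' u = y ⟨(w, u', u), h⟩ := ext_t y _ h
      rw [this]
      exact hy ⟨(w, u', u), h⟩
    · rw [Y0 _ _ _ h, abs_zero]
      have : 0 ≤ (dg H w : ℝ) := Nat.cast_nonneg _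
      exact mul_nonneg (ind_nonneg _) (by positivity)
  let X : V → V → ℝ := fun w u => ∑ u', (Y w u u' - Y w u' u)
  have X0 : ∀ w u, ¬ (t w = false ∧ H.Adj w u) → X w u = 0 := by
    intro w u h
    refine sum_eq_zero fun u' _ => ?_
    rw [Y0 w u u' (fun h' => h ⟨h'.1, h'.2.1⟩), Y0 w u' u (fun h' => h ⟨h'.1, h'.2.2⟩), sub_zero]
  have Xb : ∀ w u, |X w u| ≤ M * eta := by
    intro w u
    by_cases h : t w = false ∧ H.Adj w u
    · have hd := dgpos w u h.2
      calc |X w u| ≤ ∑ u', |Y w u u' - Y w u' u| := abs_sum_le_sum_abs _ _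
        _ ≤ ∑ u', ind (H.Adj w u') * (M * (eta * (1 / (dg H w : ℝ)))) := by
          refine sum_le_sum fun u' _ => ?_
          have h1 := abs_sub (Y w u u') (Y w u' u)
          have h2 := Yb w u u'
          have h3 := Yb' w u u'
          linarith
        _ = M * eta := by
          rw [← sum_mul, ← dg_real]
          field_simp
    · rw [X0 w u h, abs_zero]
      positivity
  have hF : ∀ p, t p = false → (∑ q, if t p = false then X p q else X q p) = 0 := by
    intro p hp
    simp only [if_pos hp]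
    change (∑ q, ∑ u', (Y p q u' - Y p u' q)) = 0
    simp only [sum_sub_distrib]
    rw [sum_comm (f := fun q u' => Y p u' q), sub_self]
  have hTr : ∀ p (hp' : t p = true),
      (∑ q, if t p = false then X p q else X q p) = r p + M * z ⟨p, hp'⟩ := by
    intro p hp'
    have hp : ¬ t p = false := by rw [hp']; simp
    simp only [if_neg hp]
    have hb2 := hbd ⟨p, hp'⟩
    change _ = r p + M * (z ⟨p, hp'⟩ : ℝ) at hb2
    rw [← hb2]
    simp only [ite_ind]
    have f1 : (∑ e : E, ind (s e = ⟨p, hp'⟩) * y e) = ∑ w, ∑ u', Y w p u' := by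
      have g1 : (∑ e : E, ind (s e = ⟨p, hp'⟩) * y e) =
          ∑ e : E, ind (e.1.2.1 = p) * y e := by
        refine sum_congr rfl fun e _ => ?_
        have : (s e = ⟨p, hp'⟩) = (e.1.2.1 = p) := propext Subtype.ext_iff
        rw [this]
      rw [g1]
      have g2 := sumE P y (fun q => q.2.1 = p)
      refine g2.trans ?_
      rw [Fintype.sum_prod_type]
      refine sum_congr rfl fun w _ => ?_
      rw [Fintype.sum_prod_type, sum_comm]
      refine sum_congr rfl fun u' _ => ?_
      rw [sum_eq_single p]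
      · rw [ind_t rfl, one_mul]
      · intro q _ hq
        rw [ind_f hq, zero_mul]
      · intro h
        exact absurd (mem_univ p) h
    have f2 : (∑ e : E, ind (s' e = ⟨p, hp'⟩) * y e) = ∑ w, ∑ u', Y w u' p := by
      have g1 : (∑ e : E, ind (s' e = ⟨p, hp'⟩) * y e) =
          ∑ e : E, ind (e.1.2.2 = p) * y e := by
        refine sum_congr rfl fun e _ => ?_
        have : (s' e = ⟨p, hp'⟩) = (e.1.2.2 = p) := propext Subtype.ext_iff
        rw [this]
      rw [g1]
      have g2 := sumE P y (fun q => q.2.2 = p)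
      refine g2.trans ?_
      rw [Fintype.sum_prod_type]
      refine sum_congr rfl fun w _ => ?_
      rw [Fintype.sum_prod_type]
      refine sum_congr rfl fun u' _ => ?_
      rw [sum_eq_single p]
      · rw [ind_t rfl, one_mul]
      · intro q _ hq
        rw [ind_f hq, zero_mul]
      · intro h
        exact absurd (mem_univ p) h
    rw [f1, f2, ← sum_sub_distrib]
    refine sum_congr rfl fun w _ => ?_
    change ∑ u', (Y w p u' - Y w u' p) = _
    rw [sum_sub_distrib]
  refine ⟨fun v => if h : t v = true then z ⟨v, h⟩ else 0,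
    fun p q => if t p = false then X p q else X q p, ⟨?_, ?_, ?_⟩, ?_, ?_, ?_⟩
  · intro u v
    change (if t u = false then X u v else X v u) = (if t v = false then X v u else X u v)
    by_cases h1 : t u = false <;> by_cases h2 : t v = false
    · rw [if_pos h1, if_pos h2, X0 u v (fun h => hb u v h.2 (h1.trans h2.symm)),
        X0 v u (fun h => hb v u h.2 (h2.trans h1.symm))]
    · rw [if_pos h1, if_neg h2]
    · rw [if_neg h1, if_pos h2]
    · rw [if_neg h1, if_neg h2, X0 u v (fun h => h1 h.1), X0 v u (fun h => h2 h.1)]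
  · intro u v h
    change (if t u = false then X u v else X v u) = 0
    rw [X0 u v (fun h' => h h'.2), X0 v u (fun h' => h h'.2.symm)]
    simp
  · intro u v
    change |(if t u = false then X u v else X v u)| ≤ M * eta
    split_ifs
    · exact Xb u v
    · exact Xb v u
  · intro p hp
    exact hF p hp
  · intro p hp
    change (∑ q, if t p = false then X p q else X q p) =
      r p + M * ((if h : t p = true then z ⟨p, h⟩ else 0 : ℤ) : ℝ)
    rw [dif_pos hp]
    exact hTr p hp
  · change ∑ p, (∑ q, if t p = false then X p q else X q p) = 0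
    have key := Fintype.sum_subtype_add_sum_subtype (fun v => t v = true)
      (fun p : V => ∑ q, if t p = false then X p q else X q p)
    rw [← key]
    have h0 : (∑ x : {x // ¬ t x = true}, ∑ q, if t x.1 = false then X x.1 q else X q x.1) = 0 := by
      apply Finset.sum_eq_zero
      rintro ⟨x, hx⟩ _
      refine hF x ?_
      rcases h : t x with _ | _
      · rfl
      · exact absurd h hx
    rw [h0, add_zero]
    refine Eq.trans ?_ hz
    refine Fintype.sum_congr _ _ ?_
    rintro ⟨x, hx⟩
    exact hTr x hx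

end Pool.Agent.MDG.H36
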